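import Pool.Agent.H82.RD.Targets

/-!
# SMH: the data of the machine for many commensurable primes
-/

set_option autoImplicit false

namespace Pool.Agent.H38.RD

open Pool.Agent.H82.RD

theorem cast_modEq (q : ℕ) [Fact q.Prime] {k a b : ℕ} (h : a ≡ b [MOD q ^ k]) :
    (q : ℤ_[q]) ^ k ∣ (a : ℤ_[q]) - (b : ℤ_[q]) := by
  have h1 := (Nat.modEq_iff_dvd.1 h.symm)
  have h2 := map_dvd (Int.castRingHom ℤ_[q]) h1
  simpa using h2

theorem exists_mul_eq_pow (q : ℕ) [hq : Fact q.Prime] (n k : ℕ) (hn : 1 ≤ n)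
    (hk : padicValNat q n ≤ k) : ∃ u : ℤ_[q], (n : ℤ_[q]) * u = (q : ℤ_[q]) ^ k := by
  obtain ⟨v, m, hm, hnm⟩ := Nat.exists_eq_pow_mul_and_not_dvd (n := n) (by omega) q hq.1.ne_one
  have hv : padicValNat q n = v := by
    have hm0 : m ≠ 0 := by
      rintro rfl
      exact hm (dvd_zero _)
    rw [hnm, padicValNat.mul (pow_ne_zero _ hq.1.ne_zero) hm0, padicValNat.prime_pow,
      padicValNat.eq_zero_of_not_dvd hm, add_zero]
  have hu : IsUnit (m : ℤ_[q]) := by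
    rw [PadicInt.isUnit_iff, PadicInt.norm_natCast_eq_one_iff]
    exact (Nat.Prime.coprime_iff_not_dvd hq.1).2 hm
  obtain ⟨w, hw⟩ := hu
  refine ⟨(↑(w⁻¹) : ℤ_[q]) * (q : ℤ_[q]) ^ (k - v), ?_⟩
  rw [hnm]
  push_cast
  rw [← hw]
  have h1 : (q : ℤ_[q]) ^ v * (w : ℤ_[q]) * ((↑(w⁻¹) : ℤ_[q]) * (q : ℤ_[q]) ^ (k - v)) =
      (q : ℤ_[q]) ^ v * (q : ℤ_[q]) ^ (k - v) * ((w : ℤ_[q]) * (↑(w⁻¹) : ℤ_[q])) := by ring
  rw [h1, Units.mul_inv, mul_one, ← pow_add]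
  congr 1
  omega

theorem exists_theta (q : ℕ) [hq : Fact q.Prime] : ∃ θ : ℤ_[q], (ph q : ℤ_[q]) * θ = (q : ℤ_[q]) := by
  unfold ph
  split_ifs with h
  · refine ⟨1, ?_⟩
    rw [mul_one]
    exact congrArg (Nat.cast : ℕ → ℤ_[q]) h.symm
  · have hu : IsUnit ((q - 1 : ℕ) : ℤ_[q]) := by
      rw [PadicInt.isUnit_iff, PadicInt.norm_natCast_eq_one_iff]
      have := hq.1.two_le
      have h2 := (Nat.coprime_self_sub_right (n := q) (m := 1) (by omega)).2 (by simp)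
      exact h2
    obtain ⟨w, hw⟩ := hu
    refine ⟨(↑(w⁻¹) : ℤ_[q]) * (q : ℤ_[q]), ?_⟩
    rw [← hw, ← mul_assoc, Units.mul_inv, one_mul]

theorem exists_log (hLDL : T_LDL) (q e : ℕ) (hq : q.Prime) :
    ∃ ζ : ℕ → ℕ, ∀ m : ℕ, m.Coprime q → m ^ ph q ≡ (1 + qh q) ^ ζ m [MOD q ^ e] := by
  obtain ⟨h1, -, h3⟩ := hLDL q e hq
  have h : ∀ m : ℕ, ∃ z : ℕ, m.Coprime q → m ^ ph q ≡ (1 + qh q) ^ z [MOD q ^ e] := by
    intro m
    by_cases hm : m.Coprime q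
    · obtain ⟨z, hz⟩ := h1 (m ^ ph q) 1 (Nat.Coprime.pow_left _ hm) (Nat.coprime_one_left q)
        (h3 m hm)
      exact ⟨z, fun _ => by simpa using hz⟩
    · exact ⟨0, fun h => absurd h hm⟩
  choose ζ hζ using h
  exact ⟨ζ, hζ⟩

theorem qh_pos (q : ℕ) (hq : q.Prime) : 1 ≤ qh q := by
  unfold qh
  split_ifs
  · norm_num
  · exact hq.one_le

theorem dvd_qh (q : ℕ) : q ∣ qh q := by
  unfold qh
  split_ifs with h
  · subst h
    norm_num
  · exact dvd_rfl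

theorem prod_ind {T I : Finset ℕ} (h : T ⊆ I) :
    ∏ i ∈ I, i ^ (if i ∈ T then 1 else 0) = ∏ i ∈ T, i := by
  rw [← Finset.prod_subset h]
  · exact Finset.prod_congr rfl fun i hi => by rw [if_pos hi, pow_one]
  · intro i _ hi
    rw [if_neg hi, pow_zero]

theorem sum_ind {T I : Finset ℕ} (h : T ⊆ I) (f : ℕ → ℕ) :
    ∑ i ∈ I, (if i ∈ T then 1 else 0) * f i = ∑ i ∈ T, f i := by
  rw [← Finset.sum_subset h]
  · exact Finset.sum_congr rfl fun i hi => by rw [if_pos hi, one_mul]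
  · intro i _ hi
    rw [if_neg hi, zero_mul]

/-- the relation of one prime, additively -/
theorem rel_one (hLRL : T_LRL) (q : ℕ) [hq : Fact q.Prime] (e : ℕ) (ζ : ℕ → ℕ)
    (hζ : ∀ m : ℕ, m.Coprime q → m ^ ph q ≡ (1 + qh q) ^ ζ m [MOD q ^ e]) (S : Finset ℕ)
    (p n : ℕ) (α γ : ℕ → ℕ) (hS : ∀ l ∈ S, l.Coprime q) (hp : p.Prime) (hpq : p ≠ q)
    (hpS : p ∉ S) (h : (p ^ n * ∏ l ∈ S, l ^ γ l) ^ 2 ≡ (∏ l ∈ S, l ^ α l) ^ 2 [MOD q ^ e]) :
    (q : ℤ_[q]) ^ (e - 3) ∣ (n : ℤ_[q]) * (ζ p : ℤ_[q]) -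
      ∑ l ∈ S, ((α l : ℤ_[q]) - (γ l : ℤ_[q])) * (ζ l : ℤ_[q]) := by
  classical
  have hpc : p.Coprime q := (Nat.coprime_primes hp hq.1).2 hpq
  have h1 := hLRL q e ζ ℕ (insert p S) id (Function.update α p 0) (Function.update γ p n) hq.1 hζ
    (by
      intro i hi
      rcases Finset.mem_insert.1 hi with rfl | hi
      · exact hpc
      · exact hS i hi)
  have hne : ∀ l ∈ S, l ≠ p := fun l hl h => hpS (h ▸ hl)
  rw [Finset.prod_insert hpS, Finset.prod_insert hpS, Finset.sum_insert hpS,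
    Finset.sum_insert hpS] at h1
  simp only [id, Function.update_self, pow_zero, one_mul, zero_mul, zero_add] at h1
  have e1 : ∏ l ∈ S, l ^ Function.update γ p n l = ∏ l ∈ S, l ^ γ l :=
    Finset.prod_congr rfl fun l hl => by rw [Function.update_of_ne (hne l hl)]
  have e2 : ∏ l ∈ S, l ^ Function.update α p 0 l = ∏ l ∈ S, l ^ α l :=
    Finset.prod_congr rfl fun l hl => by rw [Function.update_of_ne (hne l hl)]
  have e3 : ∑ l ∈ S, Function.update γ p n l * ζ l = ∑ l ∈ S, γ l * ζ l :=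
    Finset.sum_congr rfl fun l hl => by rw [Function.update_of_ne (hne l hl)]
  have e4 : ∑ l ∈ S, Function.update α p 0 l * ζ l = ∑ l ∈ S, α l * ζ l :=
    Finset.sum_congr rfl fun l hl => by rw [Function.update_of_ne (hne l hl)]
  rw [e1, e2, e3, e4] at h1
  have h2 := cast_modEq q (h1 h)
  push_cast at h2
  have h3 : (n : ℤ_[q]) * (ζ p : ℤ_[q]) + ∑ l ∈ S, (γ l : ℤ_[q]) * (ζ l : ℤ_[q]) -
      ∑ l ∈ S, (α l : ℤ_[q]) * (ζ l : ℤ_[q]) = (n : ℤ_[q]) * (ζ p : ℤ_[q]) -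
      ∑ l ∈ S, ((α l : ℤ_[q]) - (γ l : ℤ_[q])) * (ζ l : ℤ_[q]) := by
    rw [Finset.sum_congr rfl fun l _ => sub_mul (α l : ℤ_[q]) (γ l : ℤ_[q]) (ζ l : ℤ_[q]),
      Finset.sum_sub_distrib]
    ring
  rw [h3] at h2
  exact h2

theorem pf_SMH (hLDL : T_LDL) (hLPR : T_LPR) (hLRL : T_LRL) : T_SMH := by
  intro q hq e τ c Bd Xn S P n α γ hτ hS hP
  classical
  obtain ⟨ζ0, hζ0⟩ := exists_log hLDL q e hq.1
  obtain ⟨θ, hθ⟩ := exists_theta q
  obtain ⟨κ0, hκ0⟩ : ∃ κ0 : ℕ, κ0 = P.sup (fun p => padicValNat q (n p)) := ⟨_, rfl⟩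
  have hκP : ∀ p ∈ P, padicValNat q (n p) ≤ κ0 := fun p hp => by
    rw [hκ0]
    exact Finset.le_sup (f := fun p => padicValNat q (n p)) hp
  have hqκP : P.Nonempty → q ^ κ0 ≤ Bd := by
    intro hne
    obtain ⟨p, hp, hpe⟩ := Finset.exists_mem_eq_sup P hne (fun p => padicValNat q (n p))
    obtain ⟨_, _, _, _, hn1, hn2, _⟩ := hP p hp
    have h2 : q ^ padicValNat q (n p) ∣ n p := pow_padicValNat_dvd
    have h3 := Nat.le_of_dvd (by omega) h2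
    rw [hκ0, hpe]
    exact h3.trans hn2
  have hqκ : q ^ κ0 ≤ max 1 Bd := by
    rcases P.eq_empty_or_nonempty with hPe | hne
    · rw [hκ0, hPe]
      simp
    · exact (hqκP hne).trans (le_max_right _ _)
  have hu : ∀ p : ℕ, ∃ u : ℤ_[q], p ∈ P → (n p : ℤ_[q]) * u = (q : ℤ_[q]) ^ κ0 := by
    intro p
    by_cases hp : p ∈ P
    · obtain ⟨_, _, _, _, hn1, _, _⟩ := hP p hp
      obtain ⟨u, hu⟩ := exists_mul_eq_pow q (n p) κ0 hn1 (hκP p hp)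
      exact ⟨u, fun _ => hu⟩
    · exact ⟨0, fun h => absurd h hp⟩
  choose u hu using hu
  obtain ⟨L, hLdef⟩ : ∃ L : Fin S.card → ℕ, L = fun i => (S.equivFin.symm i : ℕ) := ⟨_, rfl⟩
  have hL : ∀ i, L i ∈ S := fun i => by
    rw [hLdef]
    exact (S.equivFin.symm i).2
  have hLsum : ∀ f : ℕ → ℤ_[q], ∑ l ∈ S, f l = ∑ i, f (L i) := by
    intro f
    rw [← Finset.sum_coe_sort S f, ← Equiv.sum_comp S.equivFin.symm, hLdef]
  obtain ⟨W, hW⟩ : ∃ W : Finset ℕ → Fin S.card → ℤ_[q],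
      W = fun T i => ∑ p ∈ T, ((α p (L i) : ℤ_[q]) - (γ p (L i) : ℤ_[q])) * u p := ⟨_, rfl⟩
  obtain ⟨num, hnum⟩ : ∃ num : Finset ℕ → Fin S.card → ℤ,
      num = fun T i => ∑ p ∈ T, ((α p (L i) : ℤ) - (γ p (L i) : ℤ)) *
        ((q : ℤ) ^ κ0 * ∏ p' ∈ T.erase p, (n p' : ℤ)) := ⟨_, rfl⟩
  have hTau : ∀ T ∈ Tau q τ c P, T ⊆ P ∧ T.card = τ ∧ (∏ p ∈ T, p) % qh q = c := by
    intro T hT
    rw [Tau, Finset.mem_filter, Finset.mem_powersetCard] at hT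
    exact ⟨hT.1.1, hT.1.2, hT.2⟩
  have hne : ∀ T ∈ Tau q τ c P, P.Nonempty := by
    intro T hT
    obtain ⟨h1, h2, -⟩ := hTau T hT
    have h3 : T.Nonempty := Finset.card_pos.1 (by omega)
    exact h3.mono h1
  have hBd : ∀ T ∈ Tau q τ c P, 1 ≤ Bd := by
    intro T hT
    obtain ⟨p, hp⟩ := hne T hT
    obtain ⟨_, _, _, _, hn1, hn2, _⟩ := hP p hp
    exact hn1.trans hn2
  refine ⟨κ0 + 1, W, num, fun i => θ * (ζ0 (L i) : ℤ_[q]), ?_, ?_, ?_, ?_, ?_, ?_, ?_, ?_, ?_⟩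
  · rw [pow_succ, mul_comm]
    exact Nat.mul_le_mul_left _ hqκ
  · intro T hT
    obtain ⟨h1, h2, -⟩ := hTau T hT
    constructor
    · exact Finset.prod_pos fun p hp => (hP p (h1 hp)).1.pos
    · rw [← h2]
      exact Finset.prod_le_pow_card _ _ _ fun p hp => (hP p (h1 hp)).2.2.2.1
  · intro T hT T' hT' h
    obtain ⟨h1, -, -⟩ := hTau T hT
    obtain ⟨h1', -, -⟩ := hTau T' hT'
    rw [← Nat.primeFactors_prod (s := T) fun p hp => (hP p (h1 hp)).1,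
      ← Nat.primeFactors_prod (s := T') fun p hp => (hP p (h1' hp)).1]
    exact congrArg Nat.primeFactors h
  · intro T hT
    obtain ⟨h1, h2, -⟩ := hTau T hT
    constructor
    · exact Nat.succ_le_iff.2 (Finset.prod_pos fun p hp =>
        Nat.succ_le_iff.1 (hP p (h1 hp)).2.2.2.2.1)
    · calc ∏ p ∈ T, n p ≤ Bd ^ T.card :=
          Finset.prod_le_pow_card _ _ _ fun p hp => (hP p (h1 hp)).2.2.2.2.2.1
        _ = 1 * Bd ^ τ := by rw [h2, one_mul]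
        _ ≤ τ * Bd ^ (τ + 1) := Nat.mul_le_mul hτ (Nat.pow_le_pow_right (hBd T hT) (by omega))
  · intro T hT i
    obtain ⟨h1, h2, -⟩ := hTau T hT
    rw [hnum]
    refine (Finset.abs_sum_le_sum_abs _ _).trans ?_
    have hterm : ∀ p ∈ T, |((α p (L i) : ℤ) - (γ p (L i) : ℤ)) *
        ((q : ℤ) ^ κ0 * ∏ p' ∈ T.erase p, (n p' : ℤ))| ≤ (Bd : ℤ) ^ (τ + 1) := by
      intro p hp
      have hb := (hP p (h1 hp)).2.2.2.2.2.2.1 (L i) (hL i)
      have e1 : |(α p (L i) : ℤ) - (γ p (L i) : ℤ)| ≤ (Bd : ℤ) := by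
        rw [abs_le]
        constructor <;> omega
      have e2 : (∏ p' ∈ T.erase p, n p') ≤ Bd ^ (τ - 1) := by
        rw [← h2, ← Finset.card_erase_of_mem hp]
        exact Finset.prod_le_pow_card _ _ _ fun p' hp' =>
          (hP p' (h1 (Finset.mem_of_mem_erase hp'))).2.2.2.2.2.1
      have e3 : (q : ℤ) ^ κ0 * ∏ p' ∈ T.erase p, (n p' : ℤ) =
          ((q ^ κ0 * ∏ p' ∈ T.erase p, n p' : ℕ) : ℤ) := by push_cast; rfl
      rw [abs_mul, e3, Nat.abs_cast]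
      have e4 : q ^ κ0 * ∏ p' ∈ T.erase p, n p' ≤ Bd * Bd ^ (τ - 1) :=
        Nat.mul_le_mul (hqκP (hne T hT)) e2
      have e5 : Bd * Bd ^ (τ - 1) = Bd ^ τ := by
        rw [← pow_succ']
        congr 1
        omega
      rw [e5] at e4
      calc |(α p (L i) : ℤ) - (γ p (L i) : ℤ)| * ((q ^ κ0 * ∏ p' ∈ T.erase p, n p' : ℕ) : ℤ)
          ≤ (Bd : ℤ) * ((Bd ^ τ : ℕ) : ℤ) := by
            apply mul_le_mul e1 (by exact_mod_cast e4) (by positivity) (by positivity)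
        _ = (Bd : ℤ) ^ (τ + 1) := by push_cast; ring
    calc ∑ p ∈ T, |((α p (L i) : ℤ) - (γ p (L i) : ℤ)) *
        ((q : ℤ) ^ κ0 * ∏ p' ∈ T.erase p, (n p' : ℤ))| ≤ T.card • (Bd : ℤ) ^ (τ + 1) :=
          Finset.sum_le_card_nsmul _ _ _ hterm
      _ = ((τ * Bd ^ (τ + 1) : ℕ) : ℤ) := by
          rw [h2, nsmul_eq_mul]
          push_cast
          rfl
  · intro T hT i
    obtain ⟨h1, -, -⟩ := hTau T hT
    rw [hW, hnum]
    simp only []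
    push_cast
    rw [Finset.mul_sum]
    refine Finset.sum_congr rfl fun p hp => ?_
    rw [← Finset.mul_prod_erase T (fun p => (n p : ℤ_[q])) hp, ← hu p (h1 hp)]
    ring
  · exact (Nat.le_add_right 1 _)
  · rw [Nat.add_sub_cancel_left]
    exact dvd_qh q
  · intro T hT T' hT'
    obtain ⟨h1, -, h3⟩ := hTau T hT
    obtain ⟨h1', -, h3'⟩ := hTau T' hT'
    obtain ⟨z, hz1, hz2⟩ := hLPR q e ζ0 ℕ (T ∪ T') id (fun i => if i ∈ T then 1 else 0)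
      (fun i => if i ∈ T' then 1 else 0) hq.1 hζ0
      (by
        intro i hi
        have hi' : i ∈ P := by
          rcases Finset.mem_union.1 hi with h | h
          · exact h1 h
          · exact h1' h
        exact (Nat.coprime_primes (hP i hi').1 hq.1).2 (hP i hi').2.1)
      (by
        simp only [id]
        rw [prod_ind Finset.subset_union_left, prod_ind Finset.subset_union_right]
        exact h3.trans h3'.symm)
    simp only [id] at hz1 hz2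
    rw [prod_ind Finset.subset_union_left, prod_ind Finset.subset_union_right] at hz1
    rw [sum_ind Finset.subset_union_left, sum_ind Finset.subset_union_right] at hz2
    have hrel : ∀ T₀ : Finset ℕ, T₀ ⊆ P → (q : ℤ_[q]) ^ (e - 3) ∣
        (q : ℤ_[q]) ^ κ0 * ∑ p ∈ T₀, (ζ0 p : ℤ_[q]) - ∑ i, W T₀ i * (ζ0 (L i) : ℤ_[q]) := by
      intro T₀ hT₀
      have h5 : (q : ℤ_[q]) ^ κ0 * ∑ p ∈ T₀, (ζ0 p : ℤ_[q]) - ∑ i, W T₀ i * (ζ0 (L i) : ℤ_[q]) =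
          ∑ p ∈ T₀, u p * ((n p : ℤ_[q]) * (ζ0 p : ℤ_[q]) -
            ∑ l ∈ S, ((α p l : ℤ_[q]) - (γ p l : ℤ_[q])) * (ζ0 l : ℤ_[q])) := by
        have h6 : ∑ i, W T₀ i * (ζ0 (L i) : ℤ_[q]) = ∑ p ∈ T₀, u p *
            ∑ l ∈ S, ((α p l : ℤ_[q]) - (γ p l : ℤ_[q])) * (ζ0 l : ℤ_[q]) := by
          rw [hW]
          simp only [Finset.sum_mul]
          rw [Finset.sum_comm]
          refine Finset.sum_congr rfl fun p _ => ?_
          rw [hLsum, Finset.mul_sum]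
          refine Finset.sum_congr rfl fun i _ => ?_
          ring
        rw [h6, Finset.mul_sum, ← Finset.sum_sub_distrib]
        refine Finset.sum_congr rfl fun p hp => ?_
        rw [← hu p (hT₀ hp)]
        ring
      rw [h5]
      refine Finset.dvd_sum fun p hp => Dvd.dvd.mul_left ?_ _
      obtain ⟨hp1, hp2, hp3, _, _, _, _, hp8⟩ := hP p (hT₀ hp)
      exact rel_one hLRL q e ζ0 hζ0 S p (n p) (α p) (γ p) hS hp1 hp2 hp3 hp8
    refine ⟨z, ?_, ?_⟩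
    · have h4 := cast_modEq q hz1
      push_cast at h4
      refine (pow_dvd_pow _ (Nat.sub_le e 3)).trans ?_
      push_cast
      exact h4
    · have h4 := cast_modEq q hz2
      push_cast at h4
      have h4' : (q : ℤ_[q]) ^ (e - 3) ∣ ∑ p ∈ T, (ζ0 p : ℤ_[q]) -
          (∑ p ∈ T', (ζ0 p : ℤ_[q]) + (ph q : ℤ_[q]) * (z : ℤ_[q])) :=
        (pow_dvd_pow _ (by omega)).trans h4
      have hs : ∑ i, θ * (ζ0 (L i) : ℤ_[q]) * (W T i - W T' i) =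
          θ * ∑ i, W T i * (ζ0 (L i) : ℤ_[q]) - θ * ∑ i, W T' i * (ζ0 (L i) : ℤ_[q]) := by
        rw [Finset.mul_sum, Finset.mul_sum, ← Finset.sum_sub_distrib]
        refine Finset.sum_congr rfl fun i _ => ?_
        ring
      have key : (q : ℤ_[q]) ^ (κ0 + 1) * (z : ℤ_[q]) -
          ∑ i, θ * (ζ0 (L i) : ℤ_[q]) * (W T i - W T' i) =
          θ * ((q : ℤ_[q]) ^ κ0 * ∑ p ∈ T, (ζ0 p : ℤ_[q]) - ∑ i, W T i * (ζ0 (L i) : ℤ_[q])) -
          θ * ((q : ℤ_[q]) ^ κ0 * ∑ p ∈ T', (ζ0 p : ℤ_[q]) -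
            ∑ i, W T' i * (ζ0 (L i) : ℤ_[q])) -
          θ * (q : ℤ_[q]) ^ κ0 * (∑ p ∈ T, (ζ0 p : ℤ_[q]) -
            (∑ p ∈ T', (ζ0 p : ℤ_[q]) + (ph q : ℤ_[q]) * (z : ℤ_[q]))) := by
        have h7 : (q : ℤ_[q]) ^ (κ0 + 1) = (q : ℤ_[q]) ^ κ0 * ((ph q : ℤ_[q]) * θ) := by
          rw [hθ, pow_succ]
        rw [hs, h7]
        ring
      rw [key]
      exact dvd_sub (dvd_sub (Dvd.dvd.mul_left (hrel T h1) _) (Dvd.dvd.mul_left (hrel T' h1') _))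
        (Dvd.dvd.mul_left h4' _)

end Pool.Agent.H38.RD
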