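import Pool.Agent.H38.RD.SMH

/-!
# HMH: the data of the machine for one relation
-/

set_option autoImplicit false

namespace Pool.Agent.H38.RD

open Pool.Agent.H82.RD

theorem exists_unit (q : ℕ) [hq : Fact q.Prime] (n : ℕ) (hn : 1 ≤ n) :
    ∃ w : ℤ_[q]ˣ, (n : ℤ_[q]) = (q : ℤ_[q]) ^ padicValNat q n * (w : ℤ_[q]) := by
  obtain ⟨v, m, hm, hnm⟩ := Nat.exists_eq_pow_mul_and_not_dvd (n := n) (by omega) q hq.1.ne_one
  have hv : padicValNat q n = v := by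
    have hm0 : m ≠ 0 := by
      rintro rfl
      exact hm (dvd_zero _)
    rw [hnm, padicValNat.mul (pow_ne_zero _ hq.1.ne_zero) hm0, padicValNat.prime_pow,
      padicValNat.eq_zero_of_not_dvd hm, add_zero]
  have hu : IsUnit (m : ℤ_[q]) := by
    rw [PadicInt.isUnit_iff, PadicInt.norm_natCast_eq_one_iff]
    exact (Nat.Prime.coprime_iff_not_dvd hq.1).2 hm
  obtain ⟨w, hw⟩ := hu
  refine ⟨w, ?_⟩
  rw [hv, hw, hnm]
  push_cast
  rfl

theorem pow_cancel (q : ℕ) [hq : Fact q.Prime] (e μ : ℕ) (w : ℤ_[q]ˣ) (Y : ℤ_[q])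
    (h : (q : ℤ_[q]) ^ e ∣ (q : ℤ_[q]) ^ μ * (w : ℤ_[q]) * Y) : (q : ℤ_[q]) ^ (e - μ) ∣ Y := by
  rcases le_total e μ with he | he
  · rw [Nat.sub_eq_zero_of_le he, pow_zero]
    exact one_dvd _
  · have hq0 : (q : ℤ_[q]) ≠ 0 := by
      exact_mod_cast hq.1.ne_zero
    obtain ⟨d, rfl⟩ := Nat.exists_eq_add_of_le he
    rw [Nat.add_sub_cancel_left]
    rw [pow_add, mul_assoc, mul_dvd_mul_iff_left (pow_ne_zero _ hq0)] at h
    exact (Units.dvd_mul_left).1 h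

theorem factorization_prod_pow {r : ℕ} (l k : Fin r → ℕ) (hl : Function.Injective l)
    (hp : ∀ i, (l i).Prime) (i : Fin r) : (∏ j, l j ^ k j).factorization (l i) = k i := by
  rw [Nat.factorization_prod fun j _ => pow_ne_zero _ (hp j).ne_zero, Finsupp.finset_sum_apply,
    Finset.sum_eq_single i]
  · rw [(hp i).factorization_pow, Finsupp.single_eq_same]
  · intro j _ hji
    rw [(hp j).factorization_pow, Finsupp.single_eq_of_ne]
    exact fun h => hji (hl h).symm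
  · intro h
    exact absurd (Finset.mem_univ i) h

theorem pf_HMH (hLDL : T_LDL) (hLPR : T_LPR) (hLRL : T_LRL) : T_HMH := by
  intro q hq r e T c Bd l α γ hinj hl hT hαγ hrel
  obtain ⟨ζ0, hζ0⟩ := exists_log hLDL q e hq.1
  obtain ⟨θ, hθ⟩ := exists_theta q
  obtain ⟨V, hV⟩ : ∃ V : Fin (r + 1) → ℤ, V = fun i => (γ i : ℤ) - (α i : ℤ) := ⟨_, rfl⟩
  have hV0 : ∀ i, V i ≠ 0 := by
    intro i
    rw [hV]
    have := (hαγ i).1
    simp only []
    omega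
  have hVB : ∀ i, |V i| ≤ (Bd : ℤ) := by
    intro i
    have h1 := (hαγ i).2.1
    have h2 := (hαγ i).2.2
    rw [hV, abs_le]
    constructor <;> simp only [] <;> omega
  obtain ⟨i0, -, hi0⟩ := Finset.exists_min_image Finset.univ
    (fun i => padicValNat q (V i).natAbs) ⟨(0 : Fin (r + 1)), Finset.mem_univ _⟩
  obtain ⟨μ, hμ⟩ : ∃ μ, μ = padicValNat q (V i0).natAbs := ⟨_, rfl⟩
  have hD1 : 1 ≤ (V i0).natAbs := Int.natAbs_pos.2 (hV0 i0)
  have hDB : (V i0).natAbs ≤ Bd := by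
    have := hVB i0
    rw [Int.abs_eq_natAbs] at this
    omega
  have hμB : q ^ μ ≤ Bd := by
    have h2 : q ^ padicValNat q (V i0).natAbs ∣ (V i0).natAbs := pow_padicValNat_dvd
    have h3 := Nat.le_of_dvd (by omega) h2
    rw [hμ]
    exact h3.trans hDB
  obtain ⟨w, hw⟩ := exists_unit q (V i0).natAbs hD1
  rw [← hμ] at hw
  obtain ⟨s, hs1, hs2⟩ : ∃ s : ℤ, s * s = 1 ∧ V i0 = s * ((V i0).natAbs : ℤ) := by
    rcases Int.natAbs_eq (V i0) with h | h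
    · exact ⟨1, by norm_num, by rw [one_mul]; exact h⟩
    · exact ⟨-1, by norm_num, by rw [neg_one_mul]; exact h⟩
  have hs2' : ((V i0).natAbs : ℤ) = s * V i0 := by
    calc ((V i0).natAbs : ℤ) = s * s * ((V i0).natAbs : ℤ) := by rw [hs1, one_mul]
      _ = s * (s * ((V i0).natAbs : ℤ)) := by ring
      _ = s * V i0 := by rw [← hs2]
  have hsabs : |s| = 1 := by
    have h1 : |s| * |s| = 1 := by rw [← abs_mul, hs1, abs_one]
    have h2 := abs_nonneg s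
    nlinarith
  have hs1' : (s : ℤ_[q]) * (s : ℤ_[q]) = 1 := by exact_mod_cast hs1
  have hVw : (V i0 : ℤ_[q]) = (s : ℤ_[q]) * ((q : ℤ_[q]) ^ μ * (w : ℤ_[q])) := by
    rw [← hw]
    have h1 : (V i0 : ℤ_[q]) = ((s * ((V i0).natAbs : ℤ) : ℤ) : ℤ_[q]) :=
      congrArg (fun t : ℤ => (t : ℤ_[q])) hs2
    rw [h1, Int.cast_mul, Int.cast_natCast]
  have hρ : ∀ j : Fin r, ∃ ρ : ℤ_[q], (V i0 : ℤ_[q]) * ρ = (V (i0.succAbove j) : ℤ_[q]) := by
    intro j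
    have h1 := hi0 (i0.succAbove j) (Finset.mem_univ _)
    rw [← hμ] at h1
    have h2 : q ^ padicValNat q (V (i0.succAbove j)).natAbs ∣ (V (i0.succAbove j)).natAbs :=
      pow_padicValNat_dvd
    have h3 : q ^ μ ∣ (V (i0.succAbove j)).natAbs := (pow_dvd_pow _ h1).trans h2
    have h4 : ((q ^ μ : ℕ) : ℤ) ∣ V (i0.succAbove j) := Int.natCast_dvd.2 h3
    have h5 := map_dvd (Int.castRingHom ℤ_[q]) h4
    obtain ⟨t, ht⟩ := h5
    refine ⟨(s : ℤ_[q]) * ((↑(w⁻¹) : ℤ_[q]) * t), ?_⟩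
    have ht' : (V (i0.succAbove j) : ℤ_[q]) = (q : ℤ_[q]) ^ μ * t := by
      simpa using ht
    rw [ht', hVw]
    calc (s : ℤ_[q]) * ((q : ℤ_[q]) ^ μ * (w : ℤ_[q])) *
          ((s : ℤ_[q]) * ((↑(w⁻¹) : ℤ_[q]) * t))
        = (s : ℤ_[q]) * (s : ℤ_[q]) * ((w : ℤ_[q]) * (↑(w⁻¹) : ℤ_[q])) *
            ((q : ℤ_[q]) ^ μ * t) := by ring
      _ = (q : ℤ_[q]) ^ μ * t := by rw [hs1', Units.mul_inv, one_mul, one_mul]
  choose ρ hρ using hρ
  have hY : (q : ℤ_[q]) ^ (e - 3 - μ) ∣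
      (ζ0 (l i0) : ℤ_[q]) + ∑ j, ρ j * (ζ0 (l (i0.succAbove j)) : ℤ_[q]) := by
    have h1 := hLRL q e ζ0 (Fin (r + 1)) Finset.univ l α γ hq.1 hζ0
      (fun i _ => (Nat.coprime_primes (hl i).1 hq.1).2 (hl i).2) hrel
    have h2 := cast_modEq q h1
    push_cast at h2
    rw [← Finset.sum_sub_distrib, Fin.sum_univ_succAbove _ i0] at h2
    refine pow_cancel q (e - 3) μ w _ ?_
    have h3 : (γ i0 : ℤ_[q]) * (ζ0 (l i0) : ℤ_[q]) - (α i0 : ℤ_[q]) * (ζ0 (l i0) : ℤ_[q]) +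
        ∑ j, ((γ (i0.succAbove j) : ℤ_[q]) * (ζ0 (l (i0.succAbove j)) : ℤ_[q]) -
          (α (i0.succAbove j) : ℤ_[q]) * (ζ0 (l (i0.succAbove j)) : ℤ_[q])) =
        (V i0 : ℤ_[q]) * ((ζ0 (l i0) : ℤ_[q]) +
          ∑ j, ρ j * (ζ0 (l (i0.succAbove j)) : ℤ_[q])) := by
      rw [mul_add, Finset.mul_sum]
      congr 1
      · rw [hV]
        push_cast
        ring
      · refine Finset.sum_congr rfl fun j _ => ?_
        rw [← mul_assoc, hρ j, hV]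
        push_cast
        ring
    rw [h3, hVw] at h2
    have h4 := Dvd.dvd.mul_left h2 (s : ℤ_[q])
    have h5 : (s : ℤ_[q]) * ((s : ℤ_[q]) * ((q : ℤ_[q]) ^ μ * (w : ℤ_[q])) *
        ((ζ0 (l i0) : ℤ_[q]) + ∑ j, ρ j * (ζ0 (l (i0.succAbove j)) : ℤ_[q]))) =
        (s : ℤ_[q]) * (s : ℤ_[q]) * ((q : ℤ_[q]) ^ μ * (w : ℤ_[q]) *
        ((ζ0 (l i0) : ℤ_[q]) + ∑ j, ρ j * (ζ0 (l (i0.succAbove j)) : ℤ_[q]))) := by ring
    rw [h5, hs1', one_mul] at h4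
    exact h4
  have hKap : ∀ k ∈ Kap q T c l, (∀ i, k i ≤ T) ∧ (∏ i, l i ^ k i) % qh q = c := by
    intro k hk
    rw [Kap, Finset.mem_filter, Fintype.mem_piFinset] at hk
    refine ⟨fun i => ?_, hk.2⟩
    have := hk.1 i
    rw [Finset.mem_range] at this
    omega
  refine ⟨μ, fun k j => (k (i0.succAbove j) : ℤ_[q]) - ρ j * (k i0 : ℤ_[q]),
    fun _ => (V i0).natAbs,
    fun k j => ((V i0).natAbs : ℤ) * (k (i0.succAbove j) : ℤ) -
      s * V (i0.succAbove j) * (k i0 : ℤ),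
    fun j => θ * (ζ0 (l (i0.succAbove j)) : ℤ_[q]), hμB, ?_, ?_, ?_, ?_, ?_, ?_, ?_, ?_⟩
  · intro k hk
    obtain ⟨hk1, -⟩ := hKap k hk
    constructor
    · exact Nat.succ_le_iff.2 (Finset.prod_pos fun i _ => pow_pos (hl i).1.pos _)
    · rw [← Finset.prod_pow]
      exact Finset.prod_le_prod' fun i _ => Nat.pow_le_pow_right (hl i).1.pos (hk1 i)
  · intro k _ k' _ h
    funext i
    rw [← factorization_prod_pow l k hinj (fun i => (hl i).1) i,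
      ← factorization_prod_pow l k' hinj (fun i => (hl i).1) i]
    exact congrArg (fun m : ℕ => m.factorization (l i)) h
  · intro k _
    refine ⟨hD1, hDB.trans ?_⟩
    nlinarith
  · intro k hk j
    obtain ⟨hk1, -⟩ := hKap k hk
    have e1 : |((V i0).natAbs : ℤ) * (k (i0.succAbove j) : ℤ)| ≤ (Bd : ℤ) * (T : ℤ) := by
      rw [abs_mul, Nat.abs_cast, Nat.abs_cast]
      exact_mod_cast Nat.mul_le_mul hDB (hk1 _)
    have e2 : |s * V (i0.succAbove j) * (k i0 : ℤ)| ≤ (Bd : ℤ) * (T : ℤ) := by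
      rw [abs_mul, abs_mul, hsabs, one_mul, Nat.abs_cast]
      exact mul_le_mul (hVB _) (by exact_mod_cast hk1 _) (by positivity) (by positivity)
    calc |((V i0).natAbs : ℤ) * (k (i0.succAbove j) : ℤ) - s * V (i0.succAbove j) * (k i0 : ℤ)|
        ≤ |((V i0).natAbs : ℤ) * (k (i0.succAbove j) : ℤ)| +
          |s * V (i0.succAbove j) * (k i0 : ℤ)| := abs_sub _ _
      _ ≤ (Bd : ℤ) * T + Bd * T := add_le_add e1 e2
      _ = ((2 * Bd * T : ℕ) : ℤ) := by push_cast; ring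
  · intro k _ j
    have h1 : ((V i0).natAbs : ℤ_[q]) = (s : ℤ_[q]) * (V i0 : ℤ_[q]) := by
      have := congrArg (fun t : ℤ => (t : ℤ_[q])) hs2'
      simpa using this
    show (((V i0).natAbs : ℕ) : ℤ_[q]) * ((k (i0.succAbove j) : ℤ_[q]) -
      ρ j * (k i0 : ℤ_[q])) = ((((V i0).natAbs : ℤ) * (k (i0.succAbove j) : ℤ) -
        s * V (i0.succAbove j) * (k i0 : ℤ) : ℤ) : ℤ_[q])
    rw [Int.cast_sub, Int.cast_mul, Int.cast_mul, Int.cast_mul, Int.cast_natCast,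
      Int.cast_natCast, Int.cast_natCast, ← hρ j, h1]
    ring
  · exact (Nat.le_add_right 1 _)
  · rw [Nat.add_sub_cancel_left]
    exact dvd_qh q
  · intro k hk k' hk'
    obtain ⟨-, hk2⟩ := hKap k hk
    obtain ⟨-, hk2'⟩ := hKap k' hk'
    obtain ⟨z, hz1, hz2⟩ := hLPR q e ζ0 (Fin (r + 1)) Finset.univ l k k' hq.1 hζ0
      (fun i _ => (Nat.coprime_primes (hl i).1 hq.1).2 (hl i).2) (hk2.trans hk2'.symm)
    refine ⟨z, ?_, ?_⟩
    · have h4 := cast_modEq q hz1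
      refine (pow_dvd_pow (q : ℤ_[q]) (show e - 3 - μ ≤ e by omega)).trans ?_
      push_cast
      push_cast at h4
      exact h4
    · have h4 := cast_modEq q hz2
      push_cast at h4
      have h4' : (q : ℤ_[q]) ^ (e - 3 - μ) ∣ ∑ i, (k i : ℤ_[q]) * (ζ0 (l i) : ℤ_[q]) -
          (∑ i, (k' i : ℤ_[q]) * (ζ0 (l i) : ℤ_[q]) + (ph q : ℤ_[q]) * (z : ℤ_[q])) :=
        (pow_dvd_pow _ (by omega)).trans h4
      rw [Fin.sum_univ_succAbove _ i0, Fin.sum_univ_succAbove _ i0] at h4'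
      have hs : ∑ j, θ * (ζ0 (l (i0.succAbove j)) : ℤ_[q]) *
          (((k (i0.succAbove j) : ℤ_[q]) - ρ j * (k i0 : ℤ_[q])) -
            ((k' (i0.succAbove j) : ℤ_[q]) - ρ j * (k' i0 : ℤ_[q]))) =
          θ * ∑ j, (k (i0.succAbove j) : ℤ_[q]) * (ζ0 (l (i0.succAbove j)) : ℤ_[q]) -
          θ * ∑ j, (k' (i0.succAbove j) : ℤ_[q]) * (ζ0 (l (i0.succAbove j)) : ℤ_[q]) -
          θ * ((k i0 : ℤ_[q]) - (k' i0 : ℤ_[q])) *
            ∑ j, ρ j * (ζ0 (l (i0.succAbove j)) : ℤ_[q]) := by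
        rw [Finset.mul_sum, Finset.mul_sum, Finset.mul_sum, ← Finset.sum_sub_distrib,
          ← Finset.sum_sub_distrib]
        refine Finset.sum_congr rfl fun j _ => ?_
        ring
      have key : (q : ℤ_[q]) ^ 1 * (z : ℤ_[q]) -
          ∑ j, θ * (ζ0 (l (i0.succAbove j)) : ℤ_[q]) *
          (((k (i0.succAbove j) : ℤ_[q]) - ρ j * (k i0 : ℤ_[q])) -
            ((k' (i0.succAbove j) : ℤ_[q]) - ρ j * (k' i0 : ℤ_[q]))) =
          θ * ((k i0 : ℤ_[q]) - (k' i0 : ℤ_[q])) * ((ζ0 (l i0) : ℤ_[q]) +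
            ∑ j, ρ j * (ζ0 (l (i0.succAbove j)) : ℤ_[q])) -
          θ * ((k i0 : ℤ_[q]) * (ζ0 (l i0) : ℤ_[q]) +
            ∑ j, (k (i0.succAbove j) : ℤ_[q]) * (ζ0 (l (i0.succAbove j)) : ℤ_[q]) -
            ((k' i0 : ℤ_[q]) * (ζ0 (l i0) : ℤ_[q]) +
            ∑ j, (k' (i0.succAbove j) : ℤ_[q]) * (ζ0 (l (i0.succAbove j)) : ℤ_[q]) +
              (ph q : ℤ_[q]) * (z : ℤ_[q]))) := by
        rw [hs, pow_one, ← hθ]
        ring
      rw [key]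
      exact dvd_sub (Dvd.dvd.mul_left hY _) (Dvd.dvd.mul_left h4' _)

end Pool.Agent.H38.RD
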